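import Mathlib
import Pool.Agent.Helper84.Kos.Goals2

set_option autoImplicit false

/-! GL: logarithms of unipotent elements. -/

namespace Pool.Agent.Helper84.Kos

theorem exp_trunc {S : Type} [CommRing S] [Algebra ℚ S] (w : S) (hw : IsNilpotent w) :
    ∃ r : S, IsNilpotent.exp (-w) = 1 - w + w ^ 2 * r := by
  obtain ⟨M, hM⟩ := hw
  have h1 : (-w) ^ (M + 2) = 0 := by rw [neg_pow, pow_add w, hM]; ring
  rw [IsNilpotent.exp_eq_sum h1, Finset.sum_range_succ', Finset.sum_range_succ']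
  refine ⟨∑ i ∈ Finset.range M, (((i + 2).factorial : ℚ)⁻¹) • ((-w) ^ i), ?_⟩
  rw [Finset.mul_sum]
  have h2 : ∀ i ∈ Finset.range M, ((((i + 1 + 1).factorial : ℕ) : ℚ)⁻¹) • (-w) ^ (i + 1 + 1) =
      w ^ 2 * ((((i + 2).factorial : ℕ) : ℚ)⁻¹ • ((-w) ^ i)) := by
    intro i _
    rw [mul_smul_comm]
    congr 1
    ring
  rw [Finset.sum_congr rfl h2]
  simp only [zero_add, Nat.factorial_one, Nat.factorial_zero, Nat.cast_one, inv_one, one_smul,
    pow_one, pow_zero]
  ring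

theorem comm_log_aux {S : Type} [CommRing S] [Algebra ℚ S] (u : S) (hu : IsNilpotent u) (i : ℕ) :
    ∃ t s : S, IsNilpotent.exp (-(u * t)) * (1 + u) = 1 + u ^ (i + 1) * s := by
  induction i with
  | zero => exact ⟨0, 1, by simp⟩
  | succ i ih =>
    obtain ⟨t, s, h⟩ := ih
    have hw : IsNilpotent (u ^ (i + 1) * s) := by
      rw [pow_succ, mul_comm (u ^ i) u, mul_assoc]
      exact (Commute.all _ _).isNilpotent_mul_right hu
    have hl : IsNilpotent (-(u * t)) := ((Commute.all _ _).isNilpotent_mul_right hu).neg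
    obtain ⟨r, hr⟩ := exp_trunc _ hw
    refine ⟨t + u ^ i * s, u ^ i * s ^ 2 * (r * (1 + u ^ (i + 1) * s) - 1), ?_⟩
    have e : -(u * (t + u ^ i * s)) = -(u ^ (i + 1) * s) + -(u * t) := by ring
    rw [e, IsNilpotent.exp_add_of_commute (Commute.all _ _) hw.neg hl, mul_assoc, h, hr]
    ring

theorem comm_log {S : Type} [CommRing S] [Algebra ℚ S] (u : S) (hu : IsNilpotent u) :
    ∃ l : S, IsNilpotent l ∧ IsNilpotent.exp l = 1 + u := by
  obtain ⟨N, hN⟩ := id hu
  obtain ⟨t, s, h⟩ := comm_log_aux u hu N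
  have hl : IsNilpotent (u * t) := (Commute.all _ _).isNilpotent_mul_right hu
  refine ⟨u * t, hl, ?_⟩
  rw [pow_succ, hN, zero_mul, zero_mul, add_zero] at h
  calc IsNilpotent.exp (u * t) = IsNilpotent.exp (u * t) *
        (IsNilpotent.exp (-(u * t)) * (1 + u)) := by rw [h, mul_one]
    _ = 1 + u := by rw [← mul_assoc, IsNilpotent.exp_mul_exp_neg_self hl, one_mul]

open Polynomial in
theorem stmtGL : StmtGL := by
  intro R _ _ u hu
  obtain ⟨N, hN⟩ := hu
  let I : Ideal ℚ[X] := Ideal.span {X ^ N}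
  let f : ℚ[X] ⧸ I →ₐ[ℚ] R := Ideal.Quotient.liftₐ I (aeval u) (by
    intro a ha
    obtain ⟨b, rfl⟩ := Ideal.mem_span_singleton.1 ha
    rw [map_mul, map_pow, aeval_X, hN, zero_mul])
  have hx : IsNilpotent (Ideal.Quotient.mk I X) := by
    refine ⟨N, ?_⟩
    rw [← map_pow, Ideal.Quotient.eq_zero_iff_mem]
    exact Ideal.mem_span_singleton_self _
  have hf : f (Ideal.Quotient.mk I X) = u := by
    exact aeval_X u
  obtain ⟨l, hl, he⟩ := comm_log _ hx
  refine ⟨f l, hl.map f, ?_⟩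
  rw [← IsNilpotent.map_exp hl f, he, map_add, map_one, hf]

end Pool.Agent.Helper84.Kos
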